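import Mathlib
import Pool.Agent.TRP.FIN

set_option autoImplicit false

namespace Pool.Agent.Results.MP_8b7919_co.AdditiveAlphabet

open Pool.Agent.Helper85.PowerFree TRP

/-- For every rational `α > 1`, with `q = ⌊1/(α-1)⌋`, the transition problem for `α`-power-free
words over `n` letters is decidable for all `n` outside the window
`q + 2 ≤ n < max (q + 20) (min (2 q + 12) (q + 84))`. -/
theorem result (n : ℕ) (α : ℚ) (hα : 1 < α)
    (h : ⌊1 / (α - 1)⌋₊ + 2 ≤ n →
      max (⌊1 / (α - 1)⌋₊ + 20) (min (2 * ⌊1 / (α - 1)⌋₊ + 12) (⌊1 / (α - 1)⌋₊ + 84)) ≤ n) :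
    ComputablePred (fun q : List (Fin n) × List (Fin n) =>
      ∃ w : List (Fin n), ∀ y : List (Fin n), List.IsInfix y (q.1 ++ w ++ q.2) → y ≠ [] →
        ∀ p : ℕ, 0 < p → (∀ i : ℕ, i + p < y.length → y[i]? = y[i + p]?) →
          (y.length : ℚ) / (p : ℚ) < α) :=
  computable_of_transition hα (fin_transition hα (by omega))

end Pool.Agent.Results.MP_8b7919_co.AdditiveAlphabet
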