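import Mathlib
import Pool.Agent.TSF.Main

set_option autoImplicit false

namespace Pool.Agent.Results.MP_8b7919_co.TernarySquareFree

open Pool.Agent.Helper85.PowerFree

/-- The transition problem for ternary square-free words (Restivo and Salemi 1985) is decidable.
The proof goes through the transition property `Pool.Agent.TSF.transition`: if `u` is right
extendable and `v` is left extendable, then some `u w v` is square-free. -/
theorem result :
    ComputablePred (fun q : List (Fin 3) × List (Fin 3) =>
      ∃ w : List (Fin 3), ∀ y : List (Fin 3), List.IsInfix y (q.1 ++ w ++ q.2) → y ≠ [] →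
        ∀ p : ℕ, 0 < p → (∀ i : ℕ, i + p < y.length → y[i]? = y[i + p]?) →
          (y.length : ℚ) / (p : ℚ) < 2) :=
  computable_of_transition (n := 3) (α := 2) (by norm_num) Pool.Agent.TSF.transition

end Pool.Agent.Results.MP_8b7919_co.TernarySquareFree
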